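import Mathlib

open Complex Set

namespace Pool.Agent.Results.MP_8e2370_an.NotConvex

/-- `R(z) = ∑ α_l / (z - p_l)`. -/
noncomputable def R {k : ℕ} (p α : Fin k → ℝ) (z : ℂ) : ℂ := ∑ l, (α l : ℂ) / (z - (p l : ℂ))

/-- The open upper half of the circle with diameter `[a, b]`. -/
def upperHalfCircle (a b : ℝ) : Set ℂ :=
  {z | ‖z - (((a + b) / 2 : ℝ) : ℂ)‖ = (b - a) / 2 ∧ 0 < z.im}

/-- cross product of plane vectors -/
def cr (u v : ℂ) : ℝ := u.re * v.im - u.im * v.re

lemma continuous_cr (u v : ℂ) : Continuous fun w : ℂ => cr u (w - v) := by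
  unfold cr
  fun_prop

/-- An open triangle with vertices in a convex set lies in the interior. -/
lemma mem_interior (K : Set ℂ) (hK : Convex ℝ K) (A B C D : ℂ) (hA : A ∈ K) (hB : B ∈ K)
    (hC : C ∈ K) (h1 : 0 < cr (B - A) (D - A)) (h2 : 0 < cr (C - B) (D - B))
    (h3 : 0 < cr (A - C) (D - C)) : D ∈ interior K := by
  have hopen : IsOpen ({w : ℂ | 0 < cr (B - A) (w - A)} ∩ {w : ℂ | 0 < cr (C - B) (w - B)} ∩
      {w : ℂ | 0 < cr (A - C) (w - C)}) :=
    ((isOpen_lt continuous_const (continuous_cr _ _)).inter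
      (isOpen_lt continuous_const (continuous_cr _ _))).inter
      (isOpen_lt continuous_const (continuous_cr _ _))
  refine interior_maximal ?_ hopen ⟨⟨h1, h2⟩, h3⟩
  rintro w ⟨⟨w1, w2⟩, w3⟩
  have w1 : 0 < cr (B - A) (w - A) := w1
  have w2 : 0 < cr (C - B) (w - B) := w2
  have w3 : 0 < cr (A - C) (w - C) := w3
  set T : ℝ := cr (B - A) (w - A) + cr (C - B) (w - B) + cr (A - C) (w - C) with hT
  have hTpos : 0 < T := by positivity
  have hT' : T ≠ 0 := hTpos.ne'
  have hTe : T = (B.re - A.re) * (C.im - A.im) - (B.im - A.im) * (C.re - A.re) := by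
    rw [hT]; simp only [cr, sub_re, sub_im]; ring
  -- first combine A and B
  set a : ℝ := cr (C - B) (w - B) / T with ha
  set b : ℝ := cr (A - C) (w - C) / T with hb
  set c : ℝ := cr (B - A) (w - A) / T with hc
  have ha0 : 0 < a := by positivity
  have hb0 : 0 < b := by positivity
  have hc0 : 0 < c := by positivity
  have habc : a + b + c = 1 := by
    rw [ha, hb, hc, ← add_div, ← add_div, div_eq_one_iff_eq hT', hT]
    ring
  have hab0 : 0 < a + b := by positivity
  have h4 : (a / (a + b)) • A + (b / (a + b)) • B ∈ K :=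
    hK hA hB (by positivity) (by positivity) (by field_simp)
  have h5 : (a + b) • ((a / (a + b)) • A + (b / (a + b)) • B) + c • C ∈ K :=
    hK h4 hC hab0.le hc0.le habc
  have h6 : (a + b) • ((a / (a + b)) • A + (b / (a + b)) • B) + c • C = w := by
    rw [smul_add, smul_smul, smul_smul, mul_div_cancel₀ _ hab0.ne', mul_div_cancel₀ _ hab0.ne']
    apply Complex.ext
    · simp only [add_re, real_smul, mul_re, ofReal_re, ofReal_im, zero_mul, sub_zero]
      rw [ha, hb, hc]
      field_simp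
      rw [hTe]
      simp only [cr, sub_re, sub_im]
      ring
    · simp only [add_im, real_smul, mul_im, ofReal_re, ofReal_im, zero_mul, add_zero]
      rw [ha, hb, hc]
      field_simp
      rw [hTe]
      simp only [cr, sub_re, sub_im]
      ring
  rw [h6] at h5
  exact h5

/-- The point of the unit half circle with parameter `t`. -/
noncomputable def pt (t : ℝ) : ℂ := ⟨(1 - t ^ 2) / (1 + t ^ 2), 2 * t / (1 + t ^ 2)⟩

lemma pt_mem (t : ℝ) (ht : 0 < t) : pt t ∈ upperHalfCircle (-1) 1 := by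
  constructor
  · have e : ((((-1 : ℝ) + 1) / 2 : ℝ) : ℂ) = 0 := by norm_num
    rw [e, sub_zero]
    have h : ‖pt t‖ ^ 2 = 1 := by
      rw [← normSq_eq_norm_sq, normSq_apply]
      simp only [pt]
      field_simp
      ring
    have h0 := norm_nonneg (pt t)
    have : ‖pt t‖ = 1 := by nlinarith
    rw [this]; norm_num
  · simp only [pt]
    positivity

lemma pt_eq (t : ℝ) : pt t = (1 + t * I) / (1 - t * I) := by
  have h1 : (1 : ℂ) - t * I ≠ 0 := by
    intro h
    have := congrArg Complex.re h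
    simp at this
  have h2 : (1 : ℝ) + t ^ 2 ≠ 0 := by positivity
  rw [eq_div_iff h1]
  apply Complex.ext
  · simp [pt]
    field_simp
    ring
  · simp [pt]
    field_simp
    ring

/-- Value of `R` at `pt t`. -/
lemma R_pt (t : ℝ) (ht : 0 < t) :
    R ![-1, 1, 3] ![1 / 100, 1 / 100, 1] (pt t) =
      ⟨-(1 + 2 * t ^ 2) / (2 + 8 * t ^ 2), -(t + 1 / t) / 200 - t / (2 + 8 * t ^ 2)⟩ := by
  have h1 : (1 : ℂ) - t * I ≠ 0 := by
    intro h
    have := congrArg Complex.re h
    simp at this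
  have h2 : (t : ℂ) ≠ 0 := by exact_mod_cast ht.ne'
  have h3 : (-2 : ℂ) + 4 * t * I ≠ 0 := by
    intro h
    have := congrArg Complex.re h
    simp at this
  have h4 : (2 : ℝ) + 8 * t ^ 2 ≠ 0 := by positivity
  have e1 : pt t - ((-1 : ℝ) : ℂ) = 2 / (1 - t * I) := by
    rw [pt_eq]; push_cast; field_simp; ring
  have e2 : pt t - ((1 : ℝ) : ℂ) = 2 * t * I / (1 - t * I) := by
    rw [pt_eq]; push_cast; field_simp; ring
  have e3 : pt t - ((3 : ℝ) : ℂ) = (-2 + 4 * t * I) / (1 - t * I) := by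
    rw [pt_eq]; push_cast; field_simp; ring
  have e4 : R ![-1, 1, 3] ![1 / 100, 1 / 100, 1] (pt t) =
      ((1 / 100 : ℝ) : ℂ) / (pt t - ((-1 : ℝ) : ℂ)) + ((1 / 100 : ℝ) : ℂ) / (pt t - ((1 : ℝ) : ℂ))
        + ((1 : ℝ) : ℂ) / (pt t - ((3 : ℝ) : ℂ)) := by
    unfold R
    rw [Fin.sum_univ_three]
    rfl
  rw [e4, e1, e2, e3]
  have e5 : ((1 / 100 : ℝ) : ℂ) / (2 / (1 - t * I)) = ⟨1 / 200, -t / 200⟩ := by
    rw [div_div_eq_mul_div]
    apply Complex.ext <;> simp <;> ring
  have e6 : ((1 / 100 : ℝ) : ℂ) / (2 * t * I / (1 - t * I)) = ⟨-1 / 200, -1 / (200 * t)⟩ := by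
    rw [div_div_eq_mul_div, div_eq_iff (by simp [h2])]
    apply Complex.ext
    · simp
      field_simp
      norm_num
    · simp
      field_simp
      norm_num
  have e7 : ((1 : ℝ) : ℂ) / ((-2 + 4 * t * I) / (1 - t * I)) =
      ⟨-(1 + 2 * t ^ 2) / (2 + 8 * t ^ 2), - t / (2 + 8 * t ^ 2)⟩ := by
    rw [div_div_eq_mul_div, div_eq_iff h3]
    apply Complex.ext
    · simp
      field_simp
      ring
    · simp
      field_simp
      ring
  rw [e5, e6, e7]
  apply Complex.ext
  · simp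
    ring
  · simp
    field_simp
    ring

/-- **MP_8e2370_an, Q1 (disproved).** For `k = 3`, poles `-1, 1, 3`, weights `1/100, 1/100, 1`, and
the circle with diameter `[-1, 1]`, the image of the open upper half circle under `R` is not the
boundary of any closed convex set. -/
theorem result : ∃ (k : ℕ) (_ : 3 ≤ k) (p α : Fin k → ℝ) (j : ℕ) (hj : j + 1 < k),
    StrictMono p ∧ (∀ l, 0 < α l) ∧
    ¬ ∃ K : Set ℂ, IsClosed K ∧ Convex ℝ K ∧
      frontier K = R p α '' upperHalfCircle (p ⟨j, by omega⟩) (p ⟨j + 1, hj⟩) := by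
  refine ⟨3, le_rfl, ![-1, 1, 3], ![1 / 100, 1 / 100, 1], 0, by norm_num, ?_, ?_, ?_⟩
  · intro i j hij
    fin_cases i <;> fin_cases j <;> simp_all
    norm_num
  · intro l
    fin_cases l <;> simp
  · rintro ⟨K, hKc, hK, hfr⟩
    have hfr' : frontier K = R ![-1, 1, 3] ![1 / 100, 1 / 100, 1] '' upperHalfCircle (-1) 1 := hfr
    have hmem : ∀ t : ℝ, 0 < t → (⟨-(1 + 2 * t ^ 2) / (2 + 8 * t ^ 2),
        -(t + 1 / t) / 200 - t / (2 + 8 * t ^ 2)⟩ : ℂ) ∈ frontier K := by
      intro t ht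
      rw [hfr', ← R_pt t ht]
      exact ⟨pt t, pt_mem t ht, rfl⟩
    have hsub : frontier K ⊆ K := hKc.frontier_subset
    have hD := hmem (1 / 2) (by norm_num)
    have hA := hsub (hmem (1 / 100) (by norm_num))
    have hB := hsub (hmem 2 (by norm_num))
    have hC := hsub (hmem (1 / 4) (by norm_num))
    have hint := mem_interior K hK _ _ _ ⟨-(1 + 2 * (1 / 2 : ℝ) ^ 2) /
      (2 + 8 * (1 / 2) ^ 2), -((1 / 2) + 1 / (1 / 2)) / 200 - (1 / 2) / (2 + 8 * (1 / 2) ^ 2)⟩
      hA hB hC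
      (by simp only [cr, sub_re, sub_im]; norm_num) (by simp only [cr, sub_re, sub_im]; norm_num)
      (by simp only [cr, sub_re, sub_im]; norm_num)
    exact hD.2 hint

end Pool.Agent.Results.MP_8e2370_an.NotConvex
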